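import Mathlib
import Pool.Agent.Helper311.GB.Defs

set_option autoImplicit false

open MeasureTheory Filter Topology Complex Set
open Pool.Agent.Helper311.GB

namespace Pool.Agent.N291.GC

/-- `u` is a candidate in the definition of the pluricomplex Green function of `Ω` with pole set
`S`: it is plurisubharmonic and negative on `Ω` and `u(w) ≤ log |w - s| + O(1)` as `w → s`, for
each `s ∈ S`. -/
def Cand {E : Type} [NormedAddCommGroup E] [NormedSpace ℂ E] (Ω S : Set E) (u : E → EReal) : Prop :=
  PSH Ω u ∧ (∀ w ∈ Ω, u w < 0) ∧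
    ∀ s ∈ S, ∃ C : ℝ, ∀ᶠ w in 𝓝[≠] s, u w ≤ ((Real.log ‖w - s‖ + C : ℝ) : EReal)

/-- The pluricomplex Green function of `Ω` with (logarithmic, simple) poles at the points of `S`:
the supremum of all candidates. -/
noncomputable def greenS {E : Type} [NormedAddCommGroup E] [NormedSpace ℂ E] (Ω S : Set E) (z : E) :
    EReal :=
  sSup {t : EReal | ∃ u : E → EReal, Cand Ω S u ∧ t = u z}

/-- `G ε → g` in `L¹_loc(Ω)` along the filter `l`: the real function `g` is locally integrable on
`Ω` and `∫_K |G ε - g| → 0` for every compact `K ⊆ Ω` (the functions `G ε` take values in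
`[-∞, 0]`; `toReal` only changes them on the set where they are infinite). -/
def L1locTendsto {n : ℕ} {ι : Type} (Ω : Set (EuclideanSpace ℂ (Fin n)))
    (G : ι → EuclideanSpace ℂ (Fin n) → EReal) (l : Filter ι)
    (g : EuclideanSpace ℂ (Fin n) → ℝ) : Prop :=
  LocallyIntegrableOn g Ω ∧ ∀ K : Set (EuclideanSpace ℂ (Fin n)), IsCompact K → K ⊆ Ω →
    Tendsto (fun ε => ∫⁻ z in K, ‖(G ε z).toReal - g z‖ₑ) l (𝓝 0)

end Pool.Agent.N291.GC
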