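import Mathlib
import Pool.Agent.Helper311.GB.Green

set_option autoImplicit false

open MeasureTheory Filter Topology Complex Set
open Pool.Agent.Helper311.GB

namespace Pool.Agent.N291.GC

variable {n : ℕ}

/-- `ℂⁿ` with the Euclidean norm -/
abbrev EE (n : ℕ) := EuclideanSpace ℂ (Fin n)

/-- An upper semicontinuous function with the sub-mean value property on small discs is
plurisubharmonic. -/
theorem psh_of_locdisc (Ω : Set (EE n)) (v : EE n → EReal)
    (husc : UpperSemicontinuousOn v Ω) (htop : ∀ z ∈ Ω, v z < ⊤)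
    (hl : ∀ z ∈ Ω, ∀ b : EE n, ∀ᶠ ρ : ℝ in 𝓝[>] (0:ℝ), ∀ φ : ℂ → ℝ, Continuous φ →
      (∀ ζ : ℂ, ‖ζ‖ = 1 → v (z + ζ • ((ρ:ℂ) • b)) ≤ ((φ ζ : ℝ) : EReal)) →
      v z ≤ ((Real.circleAverage φ 0 1 : ℝ) : EReal)) : PSH Ω v := by
  refine ⟨husc, htop, ?_⟩
  intro a b hab φ hφ hle
  by_contra hcon
  push Not at hcon
  obtain ⟨r, hr1, hr2⟩ := EReal.lt_iff_exists_real_btwn.1 hcon
  have hr1' : Real.circleAverage φ 0 1 < r := by exact_mod_cast hr1
  set ε : ℝ := (r - Real.circleAverage φ 0 1) / 2 with hε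
  have hε0 : 0 < ε := by rw [hε]; linarith
  obtain ⟨p, hp1, hp2⟩ := trig_maj φ hφ.continuousOn ε hε0
  let k : ℂ → ℝ := fun ζ => -(p.eval ζ).re + ε / 2 * ‖ζ‖ ^ 2
  have hkc : Continuous k :=
    (Complex.continuous_re.comp p.continuous).neg.add (continuous_const.mul (continuous_norm.pow 2))
  let F : ℂ → EReal := fun ζ => v (a + ζ • b) + ((k ζ : ℝ) : EReal)
  have hline : Continuous (fun ζ : ℂ => a + ζ • b) := by fun_prop
  have husc' : UpperSemicontinuousOn (fun ζ : ℂ => v (a + ζ • b)) (Metric.closedBall 0 1) :=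
    UpperSemicontinuousOn.comp husc hline.continuousOn (fun ζ hζ => hab ζ (by simpa using hζ))
  have hF : UpperSemicontinuousOn F (Metric.closedBall 0 1) := by
    refine UpperSemicontinuousOn.add' husc' ?_ ?_
    · have : Continuous (fun ζ => ((k ζ : ℝ) : EReal)) := continuous_coe_real_ereal.comp hkc
      exact this.upperSemicontinuous.upperSemicontinuousOn _
    · intro ζ hζ
      exact EReal.continuousAt_add (Or.inr (EReal.coe_ne_bot _)) (Or.inr (EReal.coe_ne_top _))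
  obtain ⟨ζ₀, hζ₀, hmax⟩ := hF.exists_isMaxOn ⟨0, by simp⟩ (isCompact_closedBall (0:ℂ) 1)
  have hbig : (ε : EReal) < F ζ₀ := by
    refine lt_of_lt_of_le ?_ (hmax (by simp : (0:ℂ) ∈ Metric.closedBall (0:ℂ) 1))
    have h1 : ((r : ℝ) : EReal) + ((k 0 : ℝ) : EReal) <
        v a + ((k 0 : ℝ) : EReal) := EReal.add_lt_add_right_coe hr2 _
    have h2 : F 0 = v a + ((k 0 : ℝ) : EReal) := by simp [F]
    rw [h2]
    refine lt_of_le_of_lt ?_ h1
    rw [← EReal.coe_add, EReal.coe_le_coe_iff]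
    have h3 : k 0 = -(p.eval 0).re := by simp [k]
    rw [h3]
    rw [hε] at hp2 ⊢
    linarith
  have hζ1 : ‖ζ₀‖ ≤ 1 := by simpa using hζ₀
  have hζlt : ‖ζ₀‖ < 1 := by
    refine lt_of_le_of_ne hζ1 ?_
    intro h1
    have h2 : F ζ₀ ≤ ((φ ζ₀ : ℝ) : EReal) + ((k ζ₀ : ℝ) : EReal) := add_le_add (hle ζ₀ h1) le_rfl
    rw [← EReal.coe_add] at h2
    have h3 := hbig.trans_le h2
    rw [EReal.coe_lt_coe_iff] at h3
    have h4 := hp1 ζ₀ h1
    simp only [k, h1] at h3
    linarith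
  have hm : a + ζ₀ • b ∈ Ω := hab ζ₀ hζ1
  have hne_top : F ζ₀ ≠ ⊤ := by
    have h1 := htop _ hm
    have h2 : F ζ₀ < ⊤ := by
      simp only [F]
      exact EReal.add_lt_top h1.ne (EReal.coe_ne_top _)
    exact h2.ne
  have hne_bot : F ζ₀ ≠ ⊥ := ne_bot_of_gt hbig
  set M : ℝ := (F ζ₀).toReal with hM
  have hMF : F ζ₀ = (M : EReal) := (EReal.coe_toReal hne_top hne_bot).symm
  have hconv : ∀ ζ, F ζ ≤ (M : EReal) → v (a + ζ • b) ≤ ((M - k ζ : ℝ) : EReal) := by
    intro ζ hq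
    have h1 : v (a + ζ • b) + ((k ζ : ℝ) : EReal) ≤ (M : EReal) := hq
    have h2 := (EReal.le_sub_iff_add_le (Or.inl (EReal.coe_ne_bot (k ζ)))
      (Or.inl (EReal.coe_ne_top (k ζ)))).2 h1
    rwa [← EReal.coe_sub] at h2
  have hv0 : v (a + ζ₀ • b) = ((M - k ζ₀ : ℝ) : EReal) := by
    refine le_antisymm (hconv ζ₀ hMF.le) ?_
    have h1 : v (a + ζ₀ • b) + ((k ζ₀ : ℝ) : EReal) = (M : EReal) := hMF
    rw [EReal.coe_sub, ← h1]
    rw [EReal.add_sub_cancel_right]
  -- small disc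
  have hev : ∀ᶠ ρ : ℝ in 𝓝[>] (0:ℝ), 0 < ρ ∧ ρ < 1 - ‖ζ₀‖ :=
    Filter.inter_mem self_mem_nhdsWithin (mem_nhdsWithin_of_mem_nhds (Iio_mem_nhds (by linarith)))
  obtain ⟨ρ, hρ1, hρ0, hρr⟩ := ((hl _ hm b).and hev).exists
  let H : ℂ → ℂ := fun ζ => p.eval (ζ₀ + ρ * ζ) -
    ((ε / 2 : ℝ) : ℂ) * (2 * (starRingEnd ℂ ζ₀) * (ρ * ζ))
  have hHd : Differentiable ℂ H := by
    have := p.differentiable
    fun_prop
  let C : ℝ := M - ε / 2 * (‖ζ₀‖ ^ 2 + ρ ^ 2)
  have hφ' : Continuous (fun ζ => (H ζ).re + C) :=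
    (Complex.continuous_re.comp hHd.continuous).add continuous_const
  have hfin := hρ1 (fun ζ => (H ζ).re + C) hφ' (by
    intro ζ hζ
    have hmem : ζ₀ + ρ * ζ ∈ Metric.closedBall (0:ℂ) 1 := by
      rw [mem_closedBall_zero_iff]
      calc ‖ζ₀ + ρ * ζ‖ ≤ ‖ζ₀‖ + ‖(ρ:ℂ) * ζ‖ := norm_add_le _ _
        _ = ‖ζ₀‖ + ρ := by rw [norm_mul, hζ, mul_one, Complex.norm_real, Real.norm_of_nonneg hρ0.le]
        _ ≤ 1 := by linarith
    have h1 := hconv _ (hMF ▸ hmax hmem)
    have h2 : a + (ζ₀ + ρ * ζ) • b = a + ζ₀ • b + ζ • ((ρ:ℂ) • b) := by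
      rw [add_smul, smul_smul, mul_comm ζ (ρ:ℂ), add_assoc]
    rw [h2] at h1
    refine h1.trans (le_of_eq ?_)
    congr 1
    have h3 : ‖ζ₀ + ρ * ζ‖ ^ 2 = ‖ζ₀‖ ^ 2 + ρ ^ 2 + 2 * ((starRingEnd ℂ ζ₀) * (ρ * ζ)).re := by
      have h4 : ρ ^ 2 = ‖(ρ:ℂ) * ζ‖ ^ 2 := by
        rw [norm_mul, hζ, mul_one, Complex.norm_real, Real.norm_of_nonneg hρ0.le]
      rw [h4, ← Complex.normSq_eq_norm_sq, ← Complex.normSq_eq_norm_sq,
        ← Complex.normSq_eq_norm_sq]
      simp only [Complex.normSq_apply, Complex.mul_re, Complex.add_re, Complex.add_im,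
        Complex.conj_re, Complex.conj_im, Complex.mul_im, Complex.ofReal_re, Complex.ofReal_im]
      ring
    simp only [k, H, C]
    rw [h3, Complex.sub_re, Complex.re_ofReal_mul, mul_assoc (2:ℂ),
      show (2 : ℂ) = ((2 : ℝ) : ℂ) by norm_num, Complex.re_ofReal_mul]
    ring)
  rw [J8714.avg_re H hHd C, hv0, EReal.coe_le_coe_iff] at hfin
  have hH0 : (H 0).re = (p.eval ζ₀).re := by simp [H]
  rw [hH0] at hfin
  simp only [k, C] at hfin
  have : 0 < ε / 2 * ρ ^ 2 := by positivity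
  linarith

/-- gluing: a function which is plurisubharmonic on two open sets is so on their union -/
theorem psh_union {Ω U V : Set (EE n)} {v : EE n → EReal} (hU : IsOpen U) (hV : IsOpen V)
    (hu : PSH U v) (hv : PSH V v) (hΩ : Ω ⊆ U ∪ V) : PSH Ω v := by
  refine psh_of_locdisc Ω v ?_ ?_ ?_
  · intro z hz
    rcases hΩ hz with h | h
    · have h1 : UpperSemicontinuousWithinAt v U z := hu.1 z h
      have h2 : UpperSemicontinuousAt v z := by
        intro y hy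
        have := h1 y hy
        rwa [hU.nhdsWithin_eq h] at this
      exact fun y hy => mem_nhdsWithin_of_mem_nhds (h2 y hy)
    · have h1 : UpperSemicontinuousWithinAt v V z := hv.1 z h
      have h2 : UpperSemicontinuousAt v z := by
        intro y hy
        have := h1 y hy
        rwa [hV.nhdsWithin_eq h] at this
      exact fun y hy => mem_nhdsWithin_of_mem_nhds (h2 y hy)
  · intro z hz
    rcases hΩ hz with h | h
    · exact hu.2.1 z h
    · exact hv.2.1 z h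
  · intro z hz b
    have key : ∀ W : Set (EE n), IsOpen W → PSH W v → z ∈ W →
        ∀ᶠ ρ : ℝ in 𝓝[>] (0:ℝ), ∀ φ : ℂ → ℝ, Continuous φ →
        (∀ ζ : ℂ, ‖ζ‖ = 1 → v (z + ζ • ((ρ:ℂ) • b)) ≤ ((φ ζ : ℝ) : EReal)) →
        v z ≤ ((Real.circleAverage φ 0 1 : ℝ) : EReal) := by
      intro W hW hPW hzW
      obtain ⟨s, hs, hsW⟩ := Metric.isOpen_iff.1 hW z hzW
      have hev : ∀ᶠ ρ : ℝ in 𝓝[>] (0:ℝ), 0 < ρ ∧ ρ < s / (‖b‖ + 1) :=
        Filter.inter_mem self_mem_nhdsWithin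
          (mem_nhdsWithin_of_mem_nhds (Iio_mem_nhds (by positivity)))
      filter_upwards [hev] with ρ hρ φ hφ hle
      refine hPW.2.2 z ((ρ:ℂ) • b) ?_ φ hφ hle
      intro ζ hζ
      apply hsW
      rw [Metric.mem_ball, dist_eq_norm, add_sub_cancel_left, norm_smul, norm_smul,
        Complex.norm_real, Real.norm_of_nonneg hρ.1.le]
      have h1 : ρ * (‖b‖ + 1) < s := (lt_div_iff₀ (by positivity)).1 hρ.2
      have h2 : 0 ≤ ρ * ‖b‖ := mul_nonneg hρ.1.le (norm_nonneg _)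
      nlinarith [norm_nonneg ζ, norm_nonneg b, hρ.1]
    rcases hΩ hz with h | h
    · exact key U hU hu h
    · exact key V hV hv h

theorem psh_mono {Ω U : Set (EE n)} {v : EE n → EReal} (h : PSH Ω v) (hU : U ⊆ Ω) : PSH U v :=
  ⟨h.1.mono hU, fun z hz => h.2.1 z (hU hz), fun a b hab => h.2.2 a b fun ζ hζ => hU (hab ζ hζ)⟩

theorem psh_congr {Ω : Set (EE n)} {v w : EE n → EReal} (h : PSH Ω v) (hw : ∀ z ∈ Ω, w z = v z) :
    PSH Ω w := by
  refine ⟨?_, fun z hz => by rw [hw z hz]; exact h.2.1 z hz, ?_⟩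
  · intro z hz y hy
    rw [hw z hz] at hy
    filter_upwards [h.1 z hz y hy, self_mem_nhdsWithin] with x hx hx2
    rwa [hw x hx2]
  · intro a b hab φ hφ hle
    have ha : a ∈ Ω := by simpa using hab 0 (by simp)
    rw [hw a ha]
    refine h.2.2 a b hab φ hφ fun ζ hζ => ?_
    rw [← hw _ (hab ζ hζ.le)]
    exact hle ζ hζ

theorem psh_max {Ω : Set (EE n)} {v w : EE n → EReal} (hv : PSH Ω v) (hw : PSH Ω w) :
    PSH Ω (fun z => max (v z) (w z)) := by
  refine ⟨hv.1.sup hw.1, fun z hz => max_lt (hv.2.1 z hz) (hw.2.1 z hz), ?_⟩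
  intro a b hab φ hφ hle
  exact max_le (hv.2.2 a b hab φ hφ fun ζ hζ => (le_max_left _ _).trans (hle ζ hζ))
    (hw.2.2 a b hab φ hφ fun ζ hζ => (le_max_right _ _).trans (hle ζ hζ))

theorem psh_add_const {Ω : Set (EE n)} {v : EE n → EReal} (hv : PSH Ω v) (c : ℝ) :
    PSH Ω (fun z => v z + ((c : ℝ) : EReal)) := by
  refine ⟨?_, fun z hz => EReal.add_lt_top (hv.2.1 z hz).ne (EReal.coe_ne_top _), ?_⟩
  · refine UpperSemicontinuousOn.add' hv.1 ?_ ?_
    · exact (continuous_const.upperSemicontinuous (f := fun _ : EE n => ((c:ℝ):EReal))).upperSemicontinuousOn _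
    · intro ζ hζ
      exact EReal.continuousAt_add (Or.inr (EReal.coe_ne_bot _)) (Or.inr (EReal.coe_ne_top _))
  · intro a b hab φ hφ hle
    have h1 := hv.2.2 a b hab (fun ζ => φ ζ - c) (hφ.sub continuous_const) (by
      intro ζ hζ
      have h2 := hle ζ hζ
      have h3 := (EReal.le_sub_iff_add_le (Or.inl (EReal.coe_ne_bot c))
        (Or.inl (EReal.coe_ne_top c))).2 h2
      rwa [← EReal.coe_sub] at h3)
    have h4 : Real.circleAverage (fun ζ => φ ζ - c) 0 1 = Real.circleAverage φ 0 1 - c := by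
      have := Real.circleAverage_sub (f₁ := φ) (f₂ := fun _ => c) (c := 0) (R := 1)
        hφ.continuousOn.circleIntegrable' continuous_const.continuousOn.circleIntegrable'
      rw [Real.circleAverage_const] at this
      exact this
    rw [h4, EReal.coe_sub] at h1
    exact (EReal.le_sub_iff_add_le (Or.inl (EReal.coe_ne_bot c))
        (Or.inl (EReal.coe_ne_top c))).1 h1

theorem mul_coe_le {M : ℝ} (hM : 0 < M) {x : EReal} {y : ℝ} :
    (M : EReal) * x ≤ (y : EReal) ↔ x ≤ ((y / M : ℝ) : EReal) := by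
  rw [EReal.coe_div, EReal.le_div_iff_mul_le (by exact_mod_cast hM) (EReal.coe_ne_top _), mul_comm]

theorem psh_mul_const {Ω : Set (EE n)} {v : EE n → EReal} (hv : PSH Ω v) {M : ℝ} (hM : 0 < M) :
    PSH Ω (fun z => (M : EReal) * v z) := by
  have hMt : ∀ x : EReal, x < ⊤ → (M : EReal) * x < ⊤ := by
    intro x hx
    rw [lt_top_iff_ne_top] at hx ⊢
    intro h
    rw [EReal.mul_eq_top] at h
    rcases h with h | h | h | h
    · exact EReal.coe_ne_bot _ h.1
    · have : (M : EReal) < 0 := h.1.trans_le (by simp) |>.trans_le le_rfl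
      exact absurd this (not_lt.2 (by exact_mod_cast hM.le))
    · exact EReal.coe_ne_top _ h.1
    · exact hx h.2
  refine ⟨?_, fun z hz => hMt _ (hv.2.1 z hz), ?_⟩
  · intro z hz y hy
    obtain ⟨r, hr1, hr2⟩ := EReal.lt_iff_exists_real_btwn.1 hy
    have h1 : v z < ((r / M : ℝ) : EReal) := by
      by_contra hcon
      push Not at hcon
      have h2 : (r : EReal) ≤ (M : EReal) * v z := by
        calc (r : EReal) = (M : EReal) * ((r / M : ℝ) : EReal) := by
              rw [← EReal.coe_mul]; congr 1; field_simp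
          _ ≤ _ := mul_le_mul_of_nonneg_left hcon (by exact_mod_cast hM.le)
      exact absurd hr1 (not_lt.2 h2)
    filter_upwards [hv.1 z hz _ h1] with x hx
    exact (mul_coe_le hM).2 hx.le |>.trans_lt hr2
  · intro a b hab φ hφ hle
    have h1 := hv.2.2 a b hab (fun ζ => φ ζ / M) (hφ.div_const _) (by
      intro ζ hζ
      exact (mul_coe_le hM).1 (hle ζ hζ))
    have h4 : Real.circleAverage (fun ζ => φ ζ / M) 0 1 = Real.circleAverage φ 0 1 / M := by
      have := Real.circleAverage_smul (f := φ) (c := 0) (R := 1) (a := M⁻¹)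
      have h5 : (fun ζ => φ ζ / M) = M⁻¹ • φ := by
        ext ζ; simp [div_eq_inv_mul]
      rw [h5, this, smul_eq_mul, div_eq_inv_mul]
    rw [h4] at h1
    exact (mul_coe_le hM).2 h1

/-- composition with an entire map -/
theorem psh_comp_map {Ω : Set (EE n)} (hΩ : IsOpen Ω) {v : EE n → EReal} (hv : PSH Ω v)
    {Φ : EE n → EE n} (hΦ : Differentiable ℂ Φ) : PSH (Φ ⁻¹' Ω) (fun z => v (Φ z)) := by
  refine ⟨?_, fun z hz => hv.2.1 _ hz, ?_⟩
  · exact UpperSemicontinuousOn.comp hv.1 hΦ.continuous.continuousOn (fun z hz => hz)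
  · intro a b hab φ hφ hle
    have hline : Differentiable ℂ (fun ζ : ℂ => a + ζ • b) := by fun_prop
    have := psh_comp n Ω hΩ v hv (fun ζ : ℂ => Φ (a + ζ • b)) (hΦ.comp hline)
      (fun ζ hζ => hab ζ hζ) φ hφ hle
    simpa using this

end Pool.Agent.N291.GC
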