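import Mathlib
import Pool.Agent.N291.GC.Psh

set_option autoImplicit false

open MeasureTheory Filter Topology Complex Set
open Pool.Agent.Helper311.GB

namespace Pool.Agent.N291.GC

variable {n N : ℕ}

/-- `∑ log (‖z - a j‖ / R)` -/
noncomputable def Lam (R : ℝ) (a : Fin N → EE n) (z : EE n) : EReal :=
  ENNReal.log (ENNReal.ofReal (∏ j, (‖z - a j‖ / R)))

theorem lam_cont (R : ℝ) (a : Fin N → EE n) : Continuous (Lam R a) := by
  unfold Lam
  refine ENNReal.continuous_log.comp (ENNReal.continuous_ofReal.comp ?_)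
  fun_prop

theorem lam_of_pos {R : ℝ} {a : Fin N → EE n} {z : EE n} (h : 0 < ∏ j, (‖z - a j‖ / R)) :
    Lam R a z = ((Real.log (∏ j, (‖z - a j‖ / R)) : ℝ) : EReal) :=
  ENNReal.log_ofReal_of_pos h

theorem lam_lt_zero {R : ℝ} (hR : 0 < R) (hN : 0 < N) {a : Fin N → EE n} {z : EE n}
    (h : ∀ j, ‖z - a j‖ < R) : Lam R a z < 0 := by
  have h1 : ∏ j, (‖z - a j‖ / R) < 1 := by
    have hne : (Finset.univ : Finset (Fin N)).Nonempty := ⟨⟨0, hN⟩, Finset.mem_univ _⟩
    have : ∀ j ∈ (Finset.univ : Finset (Fin N)), 0 ≤ ‖z - a j‖ / R := fun j _ => by positivity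
    obtain ⟨j0, hj0⟩ := hne
    rw [← Finset.mul_prod_erase _ _ hj0]
    have h2 : ∏ j ∈ Finset.univ.erase j0, (‖z - a j‖ / R) ≤ 1 := by
      apply Finset.prod_le_one (fun j _ => by positivity)
      intro j _
      rw [div_le_one hR]; exact (h j).le
    have h3 : ‖z - a j0‖ / R < 1 := by rw [div_lt_one hR]; exact h j0
    have h4 : 0 ≤ ‖z - a j0‖ / R := by positivity
    have h5 : 0 ≤ ∏ j ∈ Finset.univ.erase j0, (‖z - a j‖ / R) :=
      Finset.prod_nonneg fun j _ => by positivity
    nlinarith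
  have h0 : 0 ≤ ∏ j, (‖z - a j‖ / R) := Finset.prod_nonneg fun j _ => by positivity
  rcases h0.eq_or_lt with h2 | h2
  · unfold Lam
    rw [← h2]
    simp
  · rw [lam_of_pos h2]
    have := Real.log_neg h2 h1
    exact_mod_cast this

theorem lam_ge {R d : ℝ} (hR : 0 < R) (hd : 0 < d) {a : Fin N → EE n} {z : EE n}
    (h : ∀ j, d ≤ ‖z - a j‖) : ((N * Real.log (d / R) : ℝ) : EReal) ≤ Lam R a z := by
  have h1 : (d / R) ^ N ≤ ∏ j, (‖z - a j‖ / R) := by
    have := Finset.prod_le_prod (s := (Finset.univ : Finset (Fin N))) (f := fun _ => d / R)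
      (g := fun j => ‖z - a j‖ / R) (fun j _ => by positivity)
      (fun j _ => by gcongr; exact h j)
    rw [Finset.prod_const, Finset.card_univ, Fintype.card_fin] at this
    exact this
  have h2 : 0 < (d / R) ^ N := by positivity
  rw [lam_of_pos (h2.trans_le h1), EReal.coe_le_coe_iff, ← Real.log_pow]
  exact Real.log_le_log h2 h1

theorem lam_le_pole {R : ℝ} (hR : 0 < R) {a : Fin N → EE n} {z : EE n}
    (h : ∀ j, ‖z - a j‖ < R) (j : Fin N) (hz : z ≠ a j) :
    Lam R a z ≤ ((Real.log ‖z - a j‖ + (- Real.log R) : ℝ) : EReal) := by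
  have h0 : 0 < ‖z - a j‖ := norm_pos_iff.2 (sub_ne_zero.2 hz)
  have h1 : ∏ j, (‖z - a j‖ / R) ≤ ‖z - a j‖ / R := by
    rw [← Finset.mul_prod_erase _ _ (Finset.mem_univ j)]
    have h2 : ∏ j ∈ Finset.univ.erase j, (‖z - a j‖ / R) ≤ 1 := by
      apply Finset.prod_le_one (fun j _ => by positivity)
      intro j _
      rw [div_le_one hR]; exact (h j).le
    exact mul_le_of_le_one_right (by positivity) h2
  have h2 : 0 ≤ ∏ j, (‖z - a j‖ / R) := Finset.prod_nonneg fun j _ => by positivity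
  rcases h2.eq_or_lt with h3 | h3
  · unfold Lam
    rw [← h3]
    simp
  · rw [lam_of_pos h3, EReal.coe_le_coe_iff, ← sub_eq_add_neg, ← Real.log_div h0.ne' hR.ne']
    exact Real.log_le_log h3 h1

theorem avg_re_on {H : ℂ → ℂ} {U : Set ℂ} (_hU : IsOpen U) (hsub : Metric.closedBall (0:ℂ) 1 ⊆ U)
    (hH : DifferentiableOn ℂ H U) (C : ℝ) :
    Real.circleAverage (fun ζ => (H ζ).re + C) 0 1 = (H 0).re + C := by
  have h0 : DiffContOnCl ℂ (fun ζ => H ζ + (C : ℂ)) (Metric.ball 0 |(1:ℝ)|) := by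
    rw [abs_one]
    have h1 : DifferentiableOn ℂ (fun ζ => H ζ + (C : ℂ)) U := hH.add_const _
    refine DifferentiableOn.diffContOnCl ?_
    rw [closure_ball (0:ℂ) one_ne_zero]
    exact h1.mono hsub
  have h1 : (fun ζ : ℂ => (H ζ).re + C) = Complex.reCLM ∘ (fun ζ => H ζ + (C : ℂ)) := by
    ext ζ; simp
  rw [h1, ContinuousLinearMap.circleAverage_comp_comm]
  · have h2 : Real.circleAverage (fun ζ => H ζ + (C:ℂ)) 0 1 = H 0 + C :=
      DiffContOnCl.circleAverage (c := 0) (R := 1) (f := fun ζ => H ζ + (C:ℂ)) h0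
    rw [h2]; simp
  · have : ContinuousOn (fun ζ => H ζ + (C : ℂ)) (Metric.sphere 0 |(1:ℝ)|) := by
      refine (hH.continuousOn.add continuousOn_const).mono ?_
      rw [abs_one]
      exact Metric.sphere_subset_closedBall.trans hsub
    exact this.circleIntegrable'

theorem lam_psh (R : ℝ) (hR : 0 < R) (a : Fin N → EE n) : PSH univ (Lam R a) := by
  refine psh_of_locdisc univ (Lam R a) ((lam_cont R a).upperSemicontinuous.upperSemicontinuousOn _) ?_ ?_
  · intro z _
    unfold Lam
    rw [lt_top_iff_ne_top, Ne, ENNReal.log_eq_top_iff]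
    exact ENNReal.ofReal_ne_top
  · intro z _ b
    have h0 : 0 ≤ ∏ j, (‖z - a j‖ / R) := Finset.prod_nonneg fun j _ => by positivity
    rcases h0.eq_or_lt with h2 | h2
    · refine Filter.Eventually.of_forall fun ρ φ _ _ => ?_
      have : Lam R a z = ⊥ := by
        unfold Lam; rw [← h2]; simp
      rw [this]; exact bot_le
    · have hpos : ∀ j, 0 < ‖z - a j‖ := by
        intro j
        rcases (norm_nonneg (z - a j)).eq_or_lt with h | h
        · exfalso
          have : ∏ j, (‖z - a j‖ / R) = 0 :=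
            Finset.prod_eq_zero (Finset.mem_univ j) (by rw [← h]; simp)
          rw [this] at h2; exact lt_irrefl _ h2
        · exact h
      let c : Fin N → ℂ := fun j => inner ℂ (z - a j) b / (‖z - a j‖ : ℂ) ^ 2
      let F : ℂ → ℂ := fun ζ => ∏ j, (1 + ζ * c j)
      have hFd : Differentiable ℂ F := by
        intro ζ
        simp only [F]
        fun_prop
      have hF0 : F 0 = 1 := by simp [F]
      have hFe : ∀ᶠ ζ in 𝓝 (0:ℂ), F ζ ∈ Complex.slitPlane := by
        refine hFd.continuous.continuousAt.eventually ?_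
        rw [hF0]
        exact Complex.isOpen_slitPlane.mem_nhds (by simp)
      obtain ⟨δ, hδ, hFδ⟩ := Metric.eventually_nhds_iff.1 hFe
      have hFj : ∀ (ζ : ℂ) (j : Fin N), ‖1 + ζ * c j‖ ≤ ‖z + ζ • b - a j‖ / ‖z - a j‖ := by
        intro ζ j
        have h3 : (1 + ζ * c j) = inner ℂ (z - a j) (z + ζ • b - a j) / (‖z - a j‖ : ℂ) ^ 2 := by
          have h4 : z + ζ • b - a j = (z - a j) + ζ • b := by abel
          have h5 : ((‖z - a j‖ : ℝ) : ℂ) ≠ 0 := by exact_mod_cast (hpos j).ne'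
          rw [h4, inner_add_right, inner_smul_right, inner_self_eq_norm_sq_to_K]
          simp only [c]
          field_simp
          simp
        rw [h3, norm_div, norm_pow, Complex.norm_real, norm_norm]
        have h6 := norm_inner_le_norm (𝕜 := ℂ) (z - a j) (z + ζ • b - a j)
        rw [div_le_div_iff₀ (by have := hpos j; positivity) (hpos j)]
        have := hpos j
        calc ‖inner ℂ (z - a j) (z + ζ • b - a j)‖ * ‖z - a j‖
            ≤ (‖z - a j‖ * ‖z + ζ • b - a j‖) * ‖z - a j‖ := by gcongr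
          _ = ‖z + ζ • b - a j‖ * ‖z - a j‖ ^ 2 := by ring
      have hFle : ∀ ζ : ℂ, ‖F ζ‖ * ∏ j, (‖z - a j‖ / R) ≤ ∏ j, (‖z + ζ • b - a j‖ / R) := by
        intro ζ
        simp only [F]
        rw [norm_prod, ← Finset.prod_mul_distrib]
        refine Finset.prod_le_prod (fun j _ => by positivity) fun j _ => ?_
        have h3 := hFj ζ j
        have h4 := hpos j
        rw [le_div_iff₀ h4] at h3
        calc ‖1 + ζ * c j‖ * (‖z - a j‖ / R) = (‖1 + ζ * c j‖ * ‖z - a j‖) / R := by ring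
          _ ≤ _ := by gcongr
      have hev : ∀ᶠ ρ : ℝ in 𝓝[>] (0:ℝ), 0 < ρ ∧ ρ < δ / 2 :=
        Filter.inter_mem self_mem_nhdsWithin
          (mem_nhdsWithin_of_mem_nhds (Iio_mem_nhds (by positivity)))
      filter_upwards [hev] with ρ hρ φ hφ hle
      have hρ0 := hρ.1
      let H : ℂ → ℂ := fun ζ => Complex.log (F (ρ * ζ))
      have hU : ∀ ζ ∈ Metric.ball (0:ℂ) 2, F (ρ * ζ) ∈ Complex.slitPlane := by
        intro ζ hζ
        apply hFδ
        rw [dist_zero_right, norm_mul, Complex.norm_real, Real.norm_of_nonneg hρ0.le]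
        rw [mem_ball_zero_iff] at hζ
        have := hρ.2
        nlinarith [norm_nonneg ζ]
      have hHd : DifferentiableOn ℂ H (Metric.ball 0 2) := by
        intro ζ hζ
        have h3 : DifferentiableAt ℂ (fun ζ : ℂ => F (ρ * ζ)) ζ :=
          (hFd _).comp ζ ((differentiable_id.const_mul (ρ:ℂ)) ζ)
        exact (h3.clog (hU ζ hζ)).differentiableWithinAt
      have hHre : ∀ ζ, (H ζ).re = Real.log ‖F (ρ * ζ)‖ := fun ζ => Complex.log_re _
      let L0 : ℝ := Real.log (∏ j, (‖z - a j‖ / R))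
      have hcont : ContinuousOn (fun ζ => (H ζ).re + L0) (Metric.sphere (0:ℂ) |(1:ℝ)|) := by
        rw [abs_one]
        refine (Complex.continuous_re.comp_continuousOn (hHd.continuousOn.mono ?_)).add
          continuousOn_const
        intro ζ hζ
        simp only [mem_sphere_iff_norm, sub_zero] at hζ
        rw [mem_ball_zero_iff, hζ]; norm_num
      have h3 : Real.circleAverage (fun ζ => (H ζ).re + L0) 0 1 ≤ Real.circleAverage φ 0 1 := by
        refine Real.circleAverage_mono hcont.circleIntegrable'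
          hφ.continuousOn.circleIntegrable' ?_
        intro ζ hζ
        simp only [abs_one, mem_sphere_iff_norm, sub_zero] at hζ
        have h4 := hle ζ hζ
        have h5 := hFle (ρ * ζ)
        have h6 : z + (ρ * ζ) • b = z + ζ • ((ρ:ℂ) • b) := by
          rw [smul_smul, mul_comm]
        rw [h6] at h5
        have hFne : 0 < ‖F (ρ * ζ)‖ := by
          rw [norm_pos_iff]
          exact Complex.slitPlane_ne_zero (hU ζ (by rw [mem_ball_zero_iff, hζ]; norm_num))
        have h7 : 0 < ‖F (ρ * ζ)‖ * ∏ j, (‖z - a j‖ / R) := mul_pos hFne h2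
        rw [lam_of_pos (h7.trans_le h5), EReal.coe_le_coe_iff] at h4
        have h8 := Real.log_le_log h7 h5
        rw [Real.log_mul hFne.ne' h2.ne'] at h8
        rw [hHre]
        exact h8.trans h4
      rw [avg_re_on Metric.isOpen_ball (Metric.closedBall_subset_ball (by norm_num)) hHd L0] at h3
      have h9 : (H 0).re = 0 := by simp [H, hF0]
      rw [h9, zero_add] at h3
      rw [lam_of_pos h2, EReal.coe_le_coe_iff]
      exact h3

end Pool.Agent.N291.GC
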