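import Mathlib
import Pool.Agent.N291.GC.Defs
import Pool.Agent.N291.GC.Lam

set_option autoImplicit false

open MeasureTheory Filter Topology Complex Set
open Pool.Agent.Helper311.GB

namespace Pool.Agent.N291.GC

variable {n N : ℕ}

theorem le_greenS {Ω S : Set (EE n)} {u : EE n → EReal} (hu : Cand Ω S u) (z : EE n) :
    u z ≤ greenS Ω S z := le_sSup ⟨u, hu, rfl⟩

theorem greenS_le {Ω S : Set (EE n)} {z : EE n} {t : EReal} (h : ∀ u, Cand Ω S u → u z ≤ t) :
    greenS Ω S z ≤ t := sSup_le (by rintro _ ⟨u, hu, rfl⟩; exact h u hu)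

theorem greenS_nonpos {Ω S : Set (EE n)} {z : EE n} (hz : z ∈ Ω) : greenS Ω S z ≤ 0 :=
  greenS_le fun _ hu => (hu.2.1 z hz).le

/-- an upper semicontinuous negative function is bounded away from zero on compact sets -/
theorem usc_neg_bound {Ω K : Set (EE n)} {ρ : EE n → EReal} (hρ : UpperSemicontinuousOn ρ Ω)
    (hneg : ∀ z ∈ Ω, ρ z < 0) (hK : IsCompact K) (hKΩ : K ⊆ Ω) :
    ∃ c : ℝ, 0 < c ∧ ∀ z ∈ K, ρ z ≤ ((-c : ℝ) : EReal) := by
  rcases K.eq_empty_or_nonempty with he | he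
  · exact ⟨1, one_pos, fun z hz => by rw [he] at hz; exact absurd hz (Set.notMem_empty z)⟩
  · obtain ⟨x, hx, hmax⟩ := (hρ.mono hKΩ).exists_isMaxOn he hK
    obtain ⟨c, hc1, hc2⟩ := EReal.lt_iff_exists_real_btwn.1 (hneg x (hKΩ hx))
    refine ⟨-c, ?_, fun z hz => ?_⟩
    · have : c < 0 := by exact_mod_cast hc2
      linarith
    · rw [neg_neg]
      exact (hmax hz).trans hc1.le

/-- The explicit candidate. -/
theorem explicit_cand {Ω : Set (EE n)} (hΩ : IsOpen Ω) {R r : ℝ} (hr : 0 < r) (hR : 0 < R)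
    (hsub : Ω ⊆ Metric.ball 0 (R / 2)) (hball : Metric.closedBall (0 : EE n) (3 * r) ⊆ Ω)
    (hN : 0 < N) {ρ : EE n → EReal} (hρ : PSH Ω ρ) (hneg : ∀ z ∈ Ω, ρ z < 0) :
    ∃ M : ℝ, 0 < M ∧ ∀ a : Fin N → EE n, (∀ j, ‖a j‖ ≤ r) → ∃ u0 : EE n → EReal,
      Cand Ω (range a) u0 ∧ (∀ z ∈ Ω, 3 * r ≤ ‖z‖ → (M : EReal) * ρ z ≤ u0 z) ∧
      (∀ z ∈ Ω, Lam R a z ≤ u0 z) := by
  let A : Set (EE n) := Metric.closedBall 0 (3 * r) ∩ {z | 2 * r ≤ ‖z‖}
  have hA : IsCompact A :=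
    (isCompact_closedBall _ _).inter_right (isClosed_le continuous_const continuous_norm)
  obtain ⟨c, hc, hcA⟩ := usc_neg_bound hρ.1 hneg hA (fun z hz => hball hz.1)
  set M : ℝ := (N * |Real.log (r / R)| + 1) / c with hM
  have hM0 : 0 < M := by positivity
  refine ⟨M, hM0, fun a ha => ?_⟩
  have haR : ∀ z ∈ Ω, ∀ j, ‖z - a j‖ < R := by
    intro z hz j
    have h1 := hsub hz
    have h2 := hsub (hball (show a j ∈ Metric.closedBall (0 : EE n) (3 * r) by
      rw [mem_closedBall_zero_iff]; linarith [ha j]))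
    rw [mem_ball_zero_iff] at h1 h2
    linarith [norm_sub_le z (a j)]
  have hMc : -(M * c) ≤ N * Real.log (r / R) := by
    rw [hM, div_mul_cancel₀ _ hc.ne']
    have := neg_abs_le (Real.log (r / R))
    have h2 : (0:ℝ) ≤ N := Nat.cast_nonneg N
    nlinarith
  have hann : ∀ z ∈ Ω, 2 * r ≤ ‖z‖ → ‖z‖ ≤ 3 * r → (M : EReal) * ρ z ≤ Lam R a z := by
    intro z hz h1 h2
    have h3 : ρ z ≤ ((-c : ℝ) : EReal) := hcA z ⟨by rwa [mem_closedBall_zero_iff], h1⟩
    have h4 : ((N * Real.log (r / R) : ℝ) : EReal) ≤ Lam R a z := by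
      refine lam_ge hR hr fun j => ?_
      linarith [norm_sub_norm_le z (a j), ha j]
    calc (M : EReal) * ρ z ≤ (M : EReal) * ((-c : ℝ) : EReal) :=
          mul_le_mul_of_nonneg_left h3 (by exact_mod_cast hM0.le)
      _ = ((-(M * c) : ℝ) : EReal) := by rw [← EReal.coe_mul]; congr 1; ring
      _ ≤ ((N * Real.log (r / R) : ℝ) : EReal) := EReal.coe_le_coe_iff.2 hMc
      _ ≤ _ := h4
  let u0 : EE n → EReal := fun z => if ‖z‖ ≤ 3 * r then Lam R a z else max (Lam R a z) ((M : EReal) * ρ z)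
  have hu0lam : ∀ z, Lam R a z ≤ u0 z := by
    intro z
    simp only [u0]
    split_ifs
    · exact le_rfl
    · exact le_max_left _ _
  have hMρneg : ∀ z ∈ Ω, (M : EReal) * ρ z < 0 := by
    intro z hz
    obtain ⟨t, ht1, ht2⟩ := EReal.lt_iff_exists_real_btwn.1 (hneg z hz)
    have : t < 0 := by exact_mod_cast ht2
    calc (M : EReal) * ρ z ≤ (M : EReal) * (t : EReal) :=
          mul_le_mul_of_nonneg_left ht1.le (by exact_mod_cast hM0.le)
      _ = ((M * t : ℝ) : EReal) := by rw [EReal.coe_mul]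
      _ < 0 := by
        have : M * t < 0 := mul_neg_of_pos_of_neg hM0 this
        exact_mod_cast this
  refine ⟨u0, ⟨?_, ?_, ?_⟩, ?_, fun z _ => hu0lam z⟩
  · have hU : IsOpen (Ω ∩ {z : EE n | ‖z‖ < 3 * r}) :=
      hΩ.inter (isOpen_lt continuous_norm continuous_const)
    have hV : IsOpen (Ω ∩ {z : EE n | 2 * r < ‖z‖}) :=
      hΩ.inter (isOpen_lt continuous_const continuous_norm)
    refine psh_union hU hV ?_ ?_ ?_
    · refine psh_congr (psh_mono (lam_psh R hR a) (subset_univ _)) fun z hz => ?_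
      have h3 : ‖z‖ ≤ 3 * r := le_of_lt hz.2
      simp only [u0, h3, if_true]
    · refine psh_congr (psh_max (psh_mono (lam_psh R hR a) (subset_univ _))
        (psh_mono (psh_mul_const hρ hM0) inter_subset_left)) fun z hz => ?_
      simp only [u0]
      split_ifs with h
      · rw [max_eq_left]
        exact hann z hz.1 (le_of_lt hz.2) h
      · rfl
    · intro z hz
      rcases lt_or_ge ‖z‖ (3 * r) with h | h
      · exact Or.inl ⟨hz, h⟩
      · refine Or.inr ⟨hz, ?_⟩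
        have : 2 * r < ‖z‖ := by linarith
        exact this
  · intro w hw
    have h1 := lam_lt_zero hR hN (haR w hw)
    simp only [u0]
    split_ifs
    · exact h1
    · exact max_lt h1 (hMρneg w hw)
  · rintro _ ⟨j, rfl⟩
    refine ⟨-Real.log R, ?_⟩
    have h1 : ∀ᶠ w in 𝓝 (a j), ‖w‖ < 3 * r := by
      have : ‖a j‖ < 3 * r := by linarith [ha j]
      exact continuous_norm.continuousAt.eventually (gt_mem_nhds this)
    filter_upwards [mem_nhdsWithin_of_mem_nhds h1, self_mem_nhdsWithin] with w hw hw2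
    have hw' : ‖w‖ ≤ 3 * r := le_of_lt hw
    simp only [u0, hw', if_true]
    exact lam_le_pole hR (haR w (hball (by rwa [mem_closedBall_zero_iff]))) j hw2
  · intro z hz h
    simp only [u0]
    split_ifs with h2
    · exact hann z hz (by linarith) h2
    · exact le_max_right _ _

/-- the polynomial `∏ ⟨z - a j, w - a j⟩ / ‖z - a j‖²` -/
noncomputable def pol (a : Fin N → EE n) (z w : EE n) : ℂ :=
  ∏ j, (((‖z - a j‖ : ℂ) ^ 2)⁻¹ * innerSL ℂ (z - a j) (w - a j))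

theorem pol_diff (a : Fin N → EE n) (z : EE n) : Differentiable ℂ (pol a z) := by
  intro w
  unfold pol
  fun_prop

theorem pol_self {a : Fin N → EE n} {z : EE n} (h : ∀ j, z ≠ a j) : pol a z z = 1 := by
  unfold pol
  refine Finset.prod_eq_one fun j _ => ?_
  have h1 : ((‖z - a j‖ : ℝ) : ℂ) ≠ 0 := by
    exact_mod_cast (norm_pos_iff.2 (sub_ne_zero.2 (h j))).ne'
  rw [innerSL_apply_apply, inner_self_eq_norm_sq_to_K]
  exact inv_mul_cancel₀ (pow_ne_zero 2 h1)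

theorem pol_pole (a : Fin N → EE n) (z : EE n) (j : Fin N) : pol a z (a j) = 0 := by
  unfold pol
  exact Finset.prod_eq_zero (Finset.mem_univ j) (by simp)

theorem pol_factor {a z w : EE n} {d : ℝ} (hd : 0 < d) (h : d ≤ ‖z - a‖) :
    ‖(((‖z - a‖ : ℂ) ^ 2)⁻¹ * innerSL ℂ (z - a) (w - a))‖ ≤ ‖w - a‖ / d := by
  have h0 : 0 < ‖z - a‖ := hd.trans_le h
  rw [norm_mul, norm_inv, norm_pow, Complex.norm_real, norm_norm, innerSL_apply_apply]
  have h1 := norm_inner_le_norm (𝕜 := ℂ) (z - a) (w - a)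
  calc (‖z - a‖ ^ 2)⁻¹ * ‖inner ℂ (z - a) (w - a)‖
      ≤ (‖z - a‖ ^ 2)⁻¹ * (‖z - a‖ * ‖w - a‖) := by gcongr
    _ = ‖w - a‖ / ‖z - a‖ := by field_simp
    _ ≤ ‖w - a‖ / d := by gcongr

theorem pol_bound {a : Fin N → EE n} {z w : EE n} {d Q : ℝ} (hd : 0 < d)
    (h : ∀ j, d ≤ ‖z - a j‖) (hQ : 1 ≤ Q) (hw : ∀ j, ‖w - a j‖ / d ≤ Q) :
    ‖pol a z w‖ ≤ Q ^ N ∧ ∀ j, ‖pol a z w‖ ≤ Q ^ N / d * ‖w - a j‖ := by
  have h1 : ∀ j, ‖(((‖z - a j‖ : ℂ) ^ 2)⁻¹ * innerSL ℂ (z - a j) (w - a j))‖ ≤ Q :=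
    fun j => (pol_factor hd (h j)).trans (hw j)
  constructor
  · unfold pol
    rw [norm_prod]
    have := Finset.prod_le_prod (s := (Finset.univ : Finset (Fin N)))
      (f := fun j => ‖(((‖z - a j‖ : ℂ) ^ 2)⁻¹ * innerSL ℂ (z - a j) (w - a j))‖)
      (g := fun _ => Q) (fun j _ => norm_nonneg _) (fun j _ => h1 j)
    rw [Finset.prod_const, Finset.card_univ, Fintype.card_fin] at this
    exact this
  · intro j
    unfold pol
    rw [norm_prod, ← Finset.mul_prod_erase _ _ (Finset.mem_univ j)]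
    have h2 : ∏ i ∈ Finset.univ.erase j,
        ‖(((‖z - a i‖ : ℂ) ^ 2)⁻¹ * innerSL ℂ (z - a i) (w - a i))‖ ≤ Q ^ N := by
      have := Finset.prod_le_prod (s := (Finset.univ.erase j))
        (f := fun j => ‖(((‖z - a j‖ : ℂ) ^ 2)⁻¹ * innerSL ℂ (z - a j) (w - a j))‖)
        (g := fun _ => Q) (fun j _ => norm_nonneg _) (fun j _ => h1 j)
      rw [Finset.prod_const] at this
      refine this.trans (pow_le_pow_right₀ hQ ?_)
      refine (Finset.card_le_univ _).trans ?_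
      rw [Fintype.card_fin]
    have h3 := pol_factor (w := w) hd (h j)
    calc _ ≤ (‖w - a j‖ / d) * Q ^ N := by
          apply mul_le_mul h3 h2 (Finset.prod_nonneg fun _ _ => norm_nonneg _) (by positivity)
      _ = Q ^ N / d * ‖w - a j‖ := by ring

end Pool.Agent.N291.GC
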