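import Mathlib
import Pool.Agent.N291.GC.Pert

set_option autoImplicit false

open MeasureTheory Filter Topology Complex Set
open Pool.Agent.Helper311.GB

namespace Pool.Agent.N291.GC

variable {n N : ℕ}

/-- One sided equicontinuity of the Green functions, uniformly in the position of the poles. -/
theorem one_sided {Ω : Set (EE n)} (hΩ : IsOpen Ω) {R r : ℝ} (hr : 0 < r) (hR : 0 < R)
    (hsub : Ω ⊆ Metric.ball 0 (R / 2)) (hball : Metric.closedBall (0 : EE n) (3 * r) ⊆ Ω)
    (hN : 0 < N) (hH : Hyperconvex Ω) {d δ : ℝ} (hd : 0 < d) (hδ : 0 < δ) :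
    ∃ η : ℝ, 0 < η ∧ ∀ a : Fin N → EE n, (∀ j, ‖a j‖ ≤ r) → ∀ z ∈ Ω, (∀ j, d ≤ ‖z - a j‖) →
      ∀ h : EE n, ‖h‖ ≤ η → z + h ∈ Ω →
        greenS Ω (range a) (z + h) ≤ greenS Ω (range a) z + ((δ : ℝ) : EReal) := by
  obtain ⟨ρ, hρ, hneg, hex⟩ := hH
  obtain ⟨M, hM, hcand⟩ := explicit_cand hΩ hr hR hsub hball hN hρ hneg
  obtain ⟨K0, hK0, hK0Ω, hK0m⟩ := hex (-(δ / M)) (by have := div_pos hδ hM; linarith)
  let L : Set (EE n) := K0 ∪ Metric.closedBall 0 (3 * r)
  have hL : IsCompact L := hK0.union (isCompact_closedBall _ _)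
  have hLΩ : L ⊆ Ω := union_subset hK0Ω hball
  obtain ⟨η1, hη1, hη1Ω⟩ := hL.exists_cthickening_subset_open hΩ hLΩ
  set Q : ℝ := max 1 (R / d) with hQ
  have hQ1 : 1 ≤ Q := le_max_left _ _
  have hQN : 0 < Q ^ N := by positivity
  refine ⟨min (η1 / Q ^ N) (d / (2 * Q ^ N)), by positivity, ?_⟩
  intro a ha z hz hza h hh hzh
  obtain ⟨u0, hu0, hu0M, -⟩ := hcand a ha
  have haR : ∀ w ∈ Ω, ∀ j, ‖w - a j‖ < R := by
    intro z hz j
    have h1 := hsub hz
    have h2 := hsub (hball (show a j ∈ Metric.closedBall (0 : EE n) (3 * r) by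
      rw [mem_closedBall_zero_iff]; linarith [ha j]))
    rw [mem_ball_zero_iff] at h1 h2
    linarith [norm_sub_le z (a j)]
  have hwQ : ∀ w ∈ Ω, ∀ j, ‖w - a j‖ / d ≤ Q := by
    intro w hw j
    refine le_trans ?_ (le_max_right _ _)
    gcongr
    exact (haR w hw j).le
  have hh1 : ‖h‖ * Q ^ N ≤ η1 := by
    have := hh.trans (min_le_left _ _)
    rwa [le_div_iff₀ hQN] at this
  have hh2 : ‖h‖ * (Q ^ N / d) ≤ 1 / 2 := by
    have := hh.trans (min_le_right _ _)
    rw [le_div_iff₀ (by positivity)] at this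
    rw [mul_div_assoc', div_le_iff₀ hd]
    linarith
  let Φ : EE n → EE n := fun w => w + pol a z w • h
  have hΦd : Differentiable ℂ Φ := by
    intro w
    have := pol_diff a z w
    fun_prop
  have hne : ∀ j, z ≠ a j := by
    intro j hj
    have := hza j
    rw [hj, sub_self, norm_zero] at this
    linarith
  have hΦz : Φ z = z + h := by simp only [Φ, pol_self hne, one_smul]
  have hΦa : ∀ j, Φ (a j) = a j := by
    intro j; simp only [Φ, pol_pole, zero_smul, add_zero]
  have hΦL : ∀ w ∈ L, Φ w ∈ Ω := by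
    intro w hw
    apply hη1Ω
    refine Metric.mem_cthickening_of_dist_le _ w _ _ hw ?_
    simp only [Φ]
    rw [dist_eq_norm, add_sub_cancel_left, norm_smul]
    have := (pol_bound hd hza hQ1 (hwQ w (hLΩ hw))).1
    calc ‖pol a z w‖ * ‖h‖ ≤ Q ^ N * ‖h‖ := by gcongr
      _ = ‖h‖ * Q ^ N := by ring
      _ ≤ η1 := hh1
  have hΦnear : ∀ w ∈ Ω, ∀ j, ‖Φ w - w‖ ≤ 1 / 2 * ‖w - a j‖ := by
    intro w hw j
    simp only [Φ]
    rw [add_sub_cancel_left, norm_smul]
    have := (pol_bound hd hza hQ1 (hwQ w hw)).2 j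
    calc ‖pol a z w‖ * ‖h‖ ≤ (Q ^ N / d * ‖w - a j‖) * ‖h‖ := by gcongr
      _ = (‖h‖ * (Q ^ N / d)) * ‖w - a j‖ := by ring
      _ ≤ _ := by gcongr
  have key : ∀ u, Cand Ω (range a) u → u (z + h) + (((-δ : ℝ)) : EReal) ≤ greenS Ω (range a) z := by
    intro u hu
    classical
    let w1 : EE n → EReal := fun w => u (Φ w) + ((-δ : ℝ) : EReal)
    let v : EE n → EReal := fun w => if w ∈ L then max (w1 w) (u0 w) else u0 w
    let U1 : Set (EE n) := Ω ∩ Φ ⁻¹' Ω
    have hU1 : IsOpen U1 := hΩ.inter (hΩ.preimage hΦd.continuous)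
    have hU2 : IsOpen (Ω \ L) := hΩ.sdiff hL.isClosed
    have hw1lt : ∀ w, Φ w ∈ Ω → w1 w < ((-δ : ℝ) : EReal) := by
      intro w hw
      have h1 := EReal.add_lt_add_right_coe (hu.2.1 _ hw) (-δ)
      rwa [zero_add] at h1
    have hvU1 : ∀ w ∈ U1, v w = max (w1 w) (u0 w) := by
      intro w hw
      simp only [v]
      split_ifs with h1
      · rfl
      · rw [max_eq_right]
        have h2 : 3 * r ≤ ‖w‖ := by
          by_contra hcon
          push Not at hcon
          exact h1 (Or.inr (by rw [mem_closedBall_zero_iff]; exact hcon.le))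
        have h3 : ((-(δ / M) : ℝ) : EReal) ≤ ρ w := by
          by_contra hcon
          push Not at hcon
          exact h1 (Or.inl (hK0m w hw.1 hcon))
        calc w1 w ≤ ((-δ : ℝ) : EReal) := (hw1lt w hw.2).le
          _ = (M : EReal) * ((-(δ / M) : ℝ) : EReal) := by
              rw [← EReal.coe_mul]; congr 1; field_simp
          _ ≤ (M : EReal) * ρ w := mul_le_mul_of_nonneg_left h3 (by exact_mod_cast hM.le)
          _ ≤ u0 w := hu0M w hw.1 h2
    have hv : Cand Ω (range a) v := by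
      refine ⟨?_, ?_, ?_⟩
      · refine psh_union hU1 hU2 ?_ ?_ ?_
        · refine psh_congr (psh_max (psh_mono (psh_add_const (psh_comp_map hΩ hu.1 hΦd) (-δ))
            inter_subset_right) (psh_mono hu0.1 inter_subset_left)) hvU1
        · refine psh_congr (psh_mono hu0.1 sdiff_subset) fun w hw => ?_
          simp only [v, hw.2, if_false]
        · intro w hw
          by_cases hwL : w ∈ L
          · exact Or.inl ⟨hw, hΦL w hwL⟩
          · exact Or.inr ⟨hw, hwL⟩
      · intro w hw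
        simp only [v]
        split_ifs with h1
        · refine max_lt ((hw1lt w (hΦL w h1)).trans_le ?_) (hu0.2.1 w hw)
          exact_mod_cast (by linarith : -δ ≤ 0)
        · exact hu0.2.1 w hw
      · rintro _ ⟨j, rfl⟩
        obtain ⟨C1, hC1⟩ := hu.2.2 (a j) ⟨j, rfl⟩
        obtain ⟨C0, hC0⟩ := hu0.2.2 (a j) ⟨j, rfl⟩
        have haΩ : a j ∈ Ω := hball (by rw [mem_closedBall_zero_iff]; linarith [ha j])
        have hnΩ : ∀ᶠ w in 𝓝[≠] (a j), w ∈ Ω := mem_nhdsWithin_of_mem_nhds (hΩ.mem_nhds haΩ)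
        have htend : Tendsto Φ (𝓝[≠] (a j)) (𝓝[≠] (a j)) := by
          rw [tendsto_nhdsWithin_iff]
          constructor
          · have h1 : Tendsto Φ (𝓝 (a j)) (𝓝 (a j)) := by
              have := hΦd.continuous.tendsto (a j)
              rwa [hΦa j] at this
            exact h1.mono_left nhdsWithin_le_nhds
          · filter_upwards [hnΩ, self_mem_nhdsWithin] with w hw hw2 hw3
            have h1 := hΦnear w hw j
            rw [mem_singleton_iff] at hw3
            rw [hw3, norm_sub_rev] at h1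
            have h2 : 0 < ‖w - a j‖ := norm_pos_iff.2 (sub_ne_zero.2 hw2)
            linarith
        have h1 := htend.eventually hC1
        refine ⟨max (Real.log 2 + C1) C0, ?_⟩
        filter_upwards [h1, hC0, hnΩ, self_mem_nhdsWithin] with w hw1 hw2 hw3 hw4
        have h2 : 0 < ‖w - a j‖ := norm_pos_iff.2 (sub_ne_zero.2 hw4)
        have h3 : w1 w ≤ ((Real.log ‖w - a j‖ + max (Real.log 2 + C1) C0 : ℝ) : EReal) := by
          have h4 : ‖Φ w - a j‖ ≤ 2 * ‖w - a j‖ := by
            have := hΦnear w hw3 j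
            calc ‖Φ w - a j‖ = ‖(Φ w - w) + (w - a j)‖ := by congr 1; abel
              _ ≤ ‖Φ w - w‖ + ‖w - a j‖ := norm_add_le _ _
              _ ≤ _ := by linarith
          have h4' : 0 < ‖Φ w - a j‖ := by
            have := hΦnear w hw3 j
            have h5 : ‖w - a j‖ ≤ ‖Φ w - a j‖ + ‖Φ w - w‖ := by
              calc ‖w - a j‖ = ‖(Φ w - a j) - (Φ w - w)‖ := by congr 1; abel
                _ ≤ _ := norm_sub_le _ _
            linarith
          have h5 : Real.log ‖Φ w - a j‖ ≤ Real.log 2 + Real.log ‖w - a j‖ := by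
            rw [← Real.log_mul two_ne_zero h2.ne']
            exact Real.log_le_log h4' h4
          have h6 : w1 w ≤ ((Real.log ‖Φ w - a j‖ + C1 : ℝ) : EReal) + ((-δ : ℝ) : EReal) :=
            add_le_add hw1 le_rfl
          refine h6.trans ?_
          rw [← EReal.coe_add, EReal.coe_le_coe_iff]
          have := le_max_left (Real.log 2 + C1) C0
          linarith
        have h3' : u0 w ≤ ((Real.log ‖w - a j‖ + max (Real.log 2 + C1) C0 : ℝ) : EReal) := by
          refine hw2.trans ?_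
          rw [EReal.coe_le_coe_iff]
          have := le_max_right (Real.log 2 + C1) C0
          linarith
        simp only [v]
        split_ifs
        · exact max_le h3 h3'
        · exact h3'
    have h1 := le_greenS hv z
    rw [hvU1 z ⟨hz, by rw [mem_preimage, hΦz]; exact hzh⟩] at h1
    refine le_trans ?_ ((le_max_left _ _).trans h1)
    simp only [w1]
    rw [hΦz]
  refine greenS_le fun u hu => ?_
  have h1 := key u hu
  have h2 : u (z + h) - ((δ : ℝ) : EReal) ≤ greenS Ω (range a) z := by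
    rwa [EReal.coe_neg, ← sub_eq_add_neg] at h1
  exact (EReal.sub_le_iff_le_add (Or.inl (EReal.coe_ne_bot _)) (Or.inl (EReal.coe_ne_top _))).1 h2

/-- lower bound -/
theorem greenS_ge {Ω : Set (EE n)} (hΩ : IsOpen Ω) {R r : ℝ} (hr : 0 < r) (hR : 0 < R)
    (hsub : Ω ⊆ Metric.ball 0 (R / 2)) (hball : Metric.closedBall (0 : EE n) (3 * r) ⊆ Ω)
    (hN : 0 < N) (hH : Hyperconvex Ω) {d : ℝ} (hd : 0 < d) (a : Fin N → EE n)
    (ha : ∀ j, ‖a j‖ ≤ r) (z : EE n) (hz : z ∈ Ω) (hza : ∀ j, d ≤ ‖z - a j‖) :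
    ((N * Real.log (d / R) : ℝ) : EReal) ≤ greenS Ω (range a) z := by
  obtain ⟨ρ, hρ, hneg, hex⟩ := hH
  obtain ⟨M, hM, hcand⟩ := explicit_cand hΩ hr hR hsub hball hN hρ hneg
  obtain ⟨u0, hu0, -, hu0L⟩ := hcand a ha
  exact (lam_ge hR hd hza).trans ((hu0L z hz).trans (le_greenS hu0 z))

end Pool.Agent.N291.GC
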