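import Mathlib
import Pool.Agent.N291.GC.Equi

set_option autoImplicit false

open MeasureTheory Filter Topology Complex Set
open Pool.Agent.Helper311.GB

namespace Pool.Agent.N291.GC

variable {n N : ℕ}

/-- real valued version of the Green function -/
noncomputable def Gr (Ω : Set (EE n)) (a : Fin N → EE n) (z : EE n) : ℝ :=
  (greenS Ω (range a) z).toReal

theorem equi {Ω : Set (EE n)} (hΩ : IsOpen Ω) (hb : Bornology.IsBounded Ω)
    (h0 : (0 : EE n) ∈ Ω) (hN : 0 < N) (hH : Hyperconvex Ω) {K : Set (EE n)} (hK : IsCompact K)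
    (hKΩ : K ⊆ Ω \ {0}) :
    ∃ r0 : ℝ, 0 < r0 ∧ (∀ a : Fin N → EE n, (∀ j, ‖a j‖ ≤ r0) → ∀ z ∈ K,
        greenS Ω (range a) z = ((Gr Ω a z : ℝ) : EReal)) ∧
      ∀ δ : ℝ, 0 < δ → ∃ η : ℝ, 0 < η ∧ ∀ a : Fin N → EE n, (∀ j, ‖a j‖ ≤ r0) → ∀ z ∈ K,
        ∀ w, dist w z ≤ η → w ∈ Ω \ {0} ∧ |Gr Ω a w - Gr Ω a z| ≤ δ := by
  obtain ⟨R0, hR0⟩ := hb.subset_ball (0 : EE n)
  have hR0' : 0 < R0 := by
    have := hR0 h0
    rwa [Metric.mem_ball, dist_self] at this
  set R : ℝ := 2 * R0 with hR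
  have hRpos : 0 < R := by positivity
  have hsub : Ω ⊆ Metric.ball 0 (R / 2) := by rw [hR]; simpa using hR0
  obtain ⟨r1, hr1, hr1Ω⟩ := Metric.isOpen_iff.1 hΩ 0 h0
  set r : ℝ := r1 / 6 with hr
  have hrpos : 0 < r := by positivity
  have hball : Metric.closedBall (0 : EE n) (3 * r) ⊆ Ω :=
    (Metric.closedBall_subset_ball (by rw [hr]; linarith)).trans hr1Ω
  have hΩ' : IsOpen (Ω \ {(0 : EE n)}) := hΩ.sdiff isClosed_singleton
  obtain ⟨η1, hη1, hη1Ω⟩ := hK.exists_cthickening_subset_open hΩ' hKΩ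
  have hK' : IsCompact (Metric.cthickening η1 K) := hK.cthickening
  obtain ⟨d, hd, hdK⟩ : ∃ d : ℝ, 0 < d ∧ ∀ z ∈ Metric.cthickening η1 K, 2 * d ≤ ‖z‖ := by
    rcases (Metric.cthickening η1 K).eq_empty_or_nonempty with he | he
    · exact ⟨1, one_pos, fun z hz => by rw [he] at hz; exact absurd hz (Set.notMem_empty z)⟩
    · obtain ⟨x, hx, hmin⟩ := hK'.exists_isMinOn he continuous_norm.continuousOn
      have hx0 : 0 < ‖x‖ := norm_pos_iff.2 (hη1Ω hx).2
      exact ⟨‖x‖ / 2, by positivity, fun z hz => by have := hmin hz; simp only [Set.mem_ofPred_eq] at this; linarith⟩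
  have hfar : ∀ a : Fin N → EE n, (∀ j, ‖a j‖ ≤ min r d) → ∀ z ∈ Metric.cthickening η1 K,
      ∀ j, d ≤ ‖z - a j‖ := by
    intro a ha z hz j
    have h1 := hdK z hz
    have h2 := (ha j).trans (min_le_right _ _)
    linarith [norm_sub_norm_le z (a j)]
  have hfin : ∀ a : Fin N → EE n, (∀ j, ‖a j‖ ≤ min r d) → ∀ z ∈ Metric.cthickening η1 K,
      greenS Ω (range a) z = ((Gr Ω a z : ℝ) : EReal) := by
    intro a ha z hz
    have h1 := greenS_ge hΩ hrpos hRpos hsub hball hN hH hd a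
      (fun j => (ha j).trans (min_le_left _ _)) z (hη1Ω hz).1 (hfar a ha z hz)
    have h2 := greenS_nonpos (S := range a) (hη1Ω hz).1
    refine (EReal.coe_toReal ?_ ?_).symm
    · intro h3; rw [h3] at h2; exact absurd h2 (by simp)
    · intro h3; rw [h3] at h1; exact absurd h1 (not_le.2 (EReal.bot_lt_coe _))
  refine ⟨min r d, by positivity, fun a ha z hz => hfin a ha z (Metric.self_subset_cthickening K hz), ?_⟩
  intro δ hδ
  obtain ⟨η2, hη2, hos⟩ := one_sided hΩ hrpos hRpos hsub hball hN hH hd hδ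
  refine ⟨min η1 η2, by positivity, ?_⟩
  intro a ha z hz w hw
  have hz' : z ∈ Metric.cthickening η1 K := Metric.self_subset_cthickening K hz
  have hw' : w ∈ Metric.cthickening η1 K :=
    Metric.mem_cthickening_of_dist_le w z _ _ hz (hw.trans (min_le_left _ _))
  have har : ∀ j, ‖a j‖ ≤ r := fun j => (ha j).trans (min_le_left _ _)
  have hwz : ‖w - z‖ ≤ η2 := by rw [← dist_eq_norm]; exact hw.trans (min_le_right _ _)
  have h1 := hos a har z (hη1Ω hz').1 (hfar a ha z hz') (w - z) hwz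
    (by rw [add_sub_cancel]; exact (hη1Ω hw').1)
  have h2 := hos a har w (hη1Ω hw').1 (hfar a ha w hw') (z - w) (by rw [norm_sub_rev]; exact hwz)
    (by rw [add_sub_cancel]; exact (hη1Ω hz').1)
  rw [add_sub_cancel, hfin a ha z hz', hfin a ha w hw', ← EReal.coe_add, EReal.coe_le_coe_iff] at h1 h2
  refine ⟨hη1Ω hw', ?_⟩
  rw [abs_le]
  constructor <;> linarith

/-- On a compact set away from `0`, the Green functions are within `δ` of a fixed function, for all
small parameters. -/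
theorem near_mean {Ω : Set (EE n)} (hΩ : IsOpen Ω) (hb : Bornology.IsBounded Ω)
    (h0 : (0 : EE n) ∈ Ω) (hN : 0 < N) (hH : Hyperconvex Ω) {ι : Type} {l : Filter ι}
    {a : ι → Fin N → EE n} (ha : ∀ j, Tendsto (fun ε => a ε j) l (𝓝 0)) {g : EE n → ℝ}
    (hg : L1locTendsto Ω (fun ε => greenS Ω (range (a ε))) l g)
    {K : Set (EE n)} (hK : IsCompact K) (hKΩ : K ⊆ Ω \ {0}) {δ : ℝ} (hδ : 0 < δ) :
    ∃ m : EE n → ℝ, ∀ᶠ ε in l, ∀ z ∈ K, |Gr Ω (a ε) z - m z| ≤ δ := by
  obtain ⟨r0, hr0, hfin, heq⟩ := equi hΩ hb h0 hN hH hK hKΩ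
  obtain ⟨η, hη, hη'⟩ := heq (δ / 2) (by positivity)
  have hΩ' : IsOpen (Ω \ {(0 : EE n)}) := hΩ.sdiff isClosed_singleton
  obtain ⟨η1, hη1, hη1Ω⟩ := hK.exists_cthickening_subset_open hΩ' hKΩ
  set s : ℝ := min η η1 with hs
  have hs0 : 0 < s := by positivity
  have hK' : IsCompact (Metric.cthickening η1 K) := hK.cthickening
  set β : ENNReal := volume (Metric.ball (0 : EE n) s) with hβ
  have hβz : ∀ z : EE n, volume (Metric.ball z s) = β := fun z => Measure.addHaar_ball_center volume z s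
  have hβ0 : 0 < β := Metric.measure_ball_pos volume 0 hs0
  have hβt : β < ⊤ := measure_ball_lt_top
  refine ⟨fun z => (∫ w in Metric.ball z s, g w) / β.toReal, ?_⟩
  have hsmall : ∀ᶠ ε in l, ∀ j, ‖a ε j‖ ≤ r0 := by
    rw [Filter.eventually_all]
    intro j
    have h1 : Tendsto (fun ε => ‖a ε j‖) l (𝓝 0) := by
      simpa using (ha j).norm
    exact h1.eventually (Iic_mem_nhds hr0)
  have hint : ∀ᶠ ε in l, ∫⁻ z in Metric.cthickening η1 K,
      ‖(greenS Ω (range (a ε)) z).toReal - g z‖ₑ < ENNReal.ofReal (δ / 2) * β := by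
    have h1 := hg.2 _ hK' (hη1Ω.trans sdiff_subset)
    refine h1.eventually (gt_mem_nhds ?_)
    exact ENNReal.mul_pos (ENNReal.ofReal_pos.2 (by positivity)).ne' hβ0.ne'
  filter_upwards [hsmall, hint] with ε hε1 hε2 z hz
  have hBsub : Metric.ball z s ⊆ Metric.cthickening η1 K := by
    intro w hw
    exact Metric.mem_cthickening_of_dist_le w z _ _ hz ((le_of_lt hw).trans (min_le_right _ _))
  have hgint : IntegrableOn g (Metric.ball z s) :=
    (hg.1.integrableOn_compact_subset (hη1Ω.trans sdiff_subset) hK').mono_set hBsub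
  have h1 : ‖∫ w in Metric.ball z s, (Gr Ω (a ε) z - g w)‖ₑ ≤ ENNReal.ofReal δ * β := by
    calc ‖∫ w in Metric.ball z s, (Gr Ω (a ε) z - g w)‖ₑ
        ≤ ∫⁻ w in Metric.ball z s, ‖Gr Ω (a ε) z - g w‖ₑ := enorm_integral_le_lintegral_enorm _
      _ ≤ ∫⁻ w in Metric.ball z s, (ENNReal.ofReal (δ / 2) +
            ‖(greenS Ω (range (a ε)) w).toReal - g w‖ₑ) := by
          refine setLIntegral_mono' measurableSet_ball fun w hw => ?_
          have h2 := (hη' (a ε) hε1 z hz w ((le_of_lt hw).trans (min_le_left _ _))).2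
          calc ‖Gr Ω (a ε) z - g w‖ₑ
              = ‖(Gr Ω (a ε) z - Gr Ω (a ε) w) + (Gr Ω (a ε) w - g w)‖ₑ := by congr 1; ring
            _ ≤ ‖Gr Ω (a ε) z - Gr Ω (a ε) w‖ₑ + ‖Gr Ω (a ε) w - g w‖ₑ := enorm_add_le _ _
            _ ≤ _ := by
              gcongr
              · rw [Real.enorm_eq_ofReal_abs, abs_sub_comm]
                exact ENNReal.ofReal_le_ofReal h2
              · exact le_rfl
      _ = ENNReal.ofReal (δ / 2) * β + ∫⁻ w in Metric.ball z s,
            ‖(greenS Ω (range (a ε)) w).toReal - g w‖ₑ := by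
          rw [lintegral_add_left measurable_const, setLIntegral_const, hβz]
      _ ≤ ENNReal.ofReal (δ / 2) * β + ENNReal.ofReal (δ / 2) * β := by
          gcongr
          exact (lintegral_mono_set hBsub).trans hε2.le
      _ = ENNReal.ofReal δ * β := by
          rw [← add_mul, ← ENNReal.ofReal_add (by positivity) (by positivity), add_halves]
  have hβr : 0 < β.toReal := ENNReal.toReal_pos hβ0.ne' hβt.ne
  have h3 : ∫ w in Metric.ball z s, (Gr Ω (a ε) z - g w) =
      β.toReal * Gr Ω (a ε) z - ∫ w in Metric.ball z s, g w := by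
    have hc : IntegrableOn (fun _ : EE n => Gr Ω (a ε) z) (Metric.ball z s) :=
      integrableOn_const (by rw [hβz]; exact hβt.ne) (by simp)
    rw [integral_sub hc hgint, setIntegral_const, Measure.real, hβz, smul_eq_mul]
  rw [h3] at h1
  have h4 : |β.toReal * Gr Ω (a ε) z - ∫ w in Metric.ball z s, g w| ≤ δ * β.toReal := by
    rw [Real.enorm_eq_ofReal_abs] at h1
    have h5 : ENNReal.ofReal δ * β = ENNReal.ofReal (δ * β.toReal) := by
      rw [ENNReal.ofReal_mul hδ.le, ENNReal.ofReal_toReal hβt.ne]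
    rw [h5] at h1
    exact (ENNReal.ofReal_le_ofReal_iff (by positivity)).1 h1
  have h6 : Gr Ω (a ε) z - (∫ w in Metric.ball z s, g w) / β.toReal =
      (β.toReal * Gr Ω (a ε) z - ∫ w in Metric.ball z s, g w) / β.toReal := by
    field_simp
  rw [h6, abs_div, abs_of_pos hβr, div_le_iff₀ hβr]
  exact h4

theorem limit_exists {Ω : Set (EE n)} (hΩ : IsOpen Ω) (hb : Bornology.IsBounded Ω)
    (h0 : (0 : EE n) ∈ Ω) (hN : 0 < N) (hH : Hyperconvex Ω) {ι : Type} {l : Filter ι} [l.NeBot]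
    {a : ι → Fin N → EE n} (ha : ∀ j, Tendsto (fun ε => a ε j) l (𝓝 0)) {g : EE n → ℝ}
    (hg : L1locTendsto Ω (fun ε => greenS Ω (range (a ε))) l g) :
    ∃ g' : EE n → ℝ, ContinuousOn g' (Ω \ {0}) ∧ (∀ᵐ z, z ∈ Ω \ {(0 : EE n)} → g z = g' z) ∧
      ∀ K : Set (EE n), IsCompact K → K ⊆ Ω \ {0} → ∀ δ : ℝ, 0 < δ → ∀ᶠ ε in l, ∀ z ∈ K,
        ((g' z - δ : ℝ) : EReal) < greenS Ω (range (a ε)) z ∧
        greenS Ω (range (a ε)) z < ((g' z + δ : ℝ) : EReal) := by
  let g' : EE n → ℝ := fun z => limUnder l (fun ε => Gr Ω (a ε) z)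
  have hΩ' : IsOpen (Ω \ {(0 : EE n)}) := hΩ.sdiff isClosed_singleton
  have hsmall : ∀ r0 : ℝ, 0 < r0 → ∀ᶠ ε in l, ∀ j, ‖a ε j‖ ≤ r0 := by
    intro r0 hr0
    rw [Filter.eventually_all]
    intro j
    have h1 : Tendsto (fun ε => ‖a ε j‖) l (𝓝 0) := by
      simpa using (ha j).norm
    exact h1.eventually (Iic_mem_nhds hr0)
  have hlim : ∀ z ∈ Ω \ {(0 : EE n)}, Tendsto (fun ε => Gr Ω (a ε) z) l (𝓝 (g' z)) := by
    intro z hz
    apply tendsto_nhds_limUnder
    have hc : Cauchy (map (fun ε => Gr Ω (a ε) z) l) := by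
      rw [Metric.cauchy_iff]
      refine ⟨inferInstance, fun δ hδ => ?_⟩
      obtain ⟨m, hm⟩ := near_mean hΩ hb h0 hN hH ha hg (isCompact_singleton (x := z))
        (singleton_subset_iff.2 hz) (δ := δ / 4) (by positivity)
      refine ⟨Metric.closedBall (m z) (δ / 4), ?_, ?_⟩
      · rw [Filter.mem_map]
        filter_upwards [hm] with ε hε
        rw [mem_preimage, Metric.mem_closedBall, Real.dist_eq]
        exact hε z rfl
      · intro x hx y hy
        rw [Metric.mem_closedBall] at hx hy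
        have := dist_triangle_right x y (m z)
        linarith
    obtain ⟨x, hx⟩ := CompleteSpace.complete hc
    exact ⟨x, hx⟩
  have hunif : ∀ K : Set (EE n), IsCompact K → K ⊆ Ω \ {0} → ∀ δ : ℝ, 0 < δ → ∀ᶠ ε in l,
      ∀ z ∈ K, |Gr Ω (a ε) z - g' z| ≤ δ := by
    intro K hK hKΩ δ hδ
    obtain ⟨m, hm⟩ := near_mean hΩ hb h0 hN hH ha hg hK hKΩ (δ := δ / 2) (by positivity)
    have h1 : ∀ z ∈ K, |g' z - m z| ≤ δ / 2 := by
      intro z hz
      have h2 : Tendsto (fun ε => |Gr Ω (a ε) z - m z|) l (𝓝 |g' z - m z|) :=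
        ((hlim z (hKΩ hz)).sub_const _).abs
      refine le_of_tendsto h2 ?_
      filter_upwards [hm] with ε hε
      exact hε z hz
    filter_upwards [hm] with ε hε z hz
    have h2 := hε z hz
    have h3 := h1 z hz
    rw [abs_le] at h2 h3 ⊢
    constructor <;> linarith [h2.1, h2.2, h3.1, h3.2]
  have hcont : ContinuousOn g' (Ω \ {0}) := by
    intro z hz
    refine ContinuousAt.continuousWithinAt ?_
    rw [Metric.continuousAt_iff]
    intro δ hδ
    obtain ⟨r0, hr0, -, heq⟩ := equi hΩ hb h0 hN hH (isCompact_singleton (x := z))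
      (singleton_subset_iff.2 hz)
    obtain ⟨η, hη, hη'⟩ := heq (δ / 2) (by positivity)
    refine ⟨η, hη, fun {w} hw => ?_⟩
    obtain ⟨ε1, hε1⟩ := (hsmall r0 hr0).exists
    have hwΩ := (hη' (a ε1) hε1 z rfl w hw.le).1
    have h2 : Tendsto (fun ε => |Gr Ω (a ε) w - Gr Ω (a ε) z|) l (𝓝 |g' w - g' z|) :=
      ((hlim w hwΩ).sub (hlim z hz)).abs
    have h3 : |g' w - g' z| ≤ δ / 2 := by
      refine le_of_tendsto h2 ?_
      filter_upwards [hsmall r0 hr0] with ε hε
      exact (hη' (a ε) hε z rfl w hw.le).2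
    rw [Real.dist_eq]
    linarith
  refine ⟨g', hcont, ?_, ?_⟩
  · -- almost everywhere equality
    have hnull : volume {z : EE n | z ∈ Ω \ {(0 : EE n)} ∧ g z ≠ g' z} = 0 := by
      refine measure_null_of_locally_null _ fun x hx => ?_
      obtain ⟨K, hKc, hxK, hKΩ⟩ := exists_compact_subset hΩ' hx.1
      refine ⟨{z : EE n | z ∈ Ω \ {(0 : EE n)} ∧ g z ≠ g' z} ∩ K,
        inter_mem_nhdsWithin _ (mem_of_superset (isOpen_interior.mem_nhds hxK) interior_subset), ?_⟩
      have hzero : ∫⁻ z in K, ‖g z - g' z‖ₑ = 0 := by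
        refine le_antisymm (ENNReal.le_of_forall_pos_le_add fun δ hδ _ => ?_) bot_le
        have hKfin : volume K < ⊤ := hKc.measure_lt_top
        set q : ℝ := δ / ((volume K).toReal + 1) with hq
        have hδ' : (0:ℝ) < δ := by exact_mod_cast hδ
        have hq0 : 0 < q := by positivity
        have e1 := hunif K hKc hKΩ q hq0
        have e2 := (hg.2 K hKc (hKΩ.trans sdiff_subset)).eventually
          (gt_mem_nhds (ENNReal.ofReal_pos.2 hq0))
        obtain ⟨ε, h1, h2⟩ := (e1.and e2).exists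
        calc ∫⁻ z in K, ‖g z - g' z‖ₑ
            ≤ ∫⁻ z in K, (ENNReal.ofReal q + ‖(greenS Ω (range (a ε)) z).toReal - g z‖ₑ) := by
              refine setLIntegral_mono' hKc.measurableSet fun z hz => ?_
              calc ‖g z - g' z‖ₑ = ‖(Gr Ω (a ε) z - g' z) - (Gr Ω (a ε) z - g z)‖ₑ := by
                    congr 1; ring
                _ ≤ ‖Gr Ω (a ε) z - g' z‖ₑ + ‖Gr Ω (a ε) z - g z‖ₑ := enorm_sub_le
                _ ≤ _ := by
                  gcongr
                  · rw [Real.enorm_eq_ofReal_abs]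
                    exact ENNReal.ofReal_le_ofReal (h1 z hz)
                  · exact le_rfl
          _ = ENNReal.ofReal q * volume K + ∫⁻ z in K,
                ‖(greenS Ω (range (a ε)) z).toReal - g z‖ₑ := by
              rw [lintegral_add_left measurable_const, setLIntegral_const]
          _ ≤ ENNReal.ofReal q * volume K + ENNReal.ofReal q := by
              gcongr
          _ = ENNReal.ofReal (q * ((volume K).toReal + 1)) := by
              rw [mul_add, mul_one, ENNReal.ofReal_add (by positivity) hq0.le,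
                ENNReal.ofReal_mul hq0.le, ENNReal.ofReal_toReal hKfin.ne]
          _ = 0 + δ := by
              rw [hq, div_mul_cancel₀ _ (by positivity), zero_add, ENNReal.ofReal_coe_nnreal]
      have hmeas : AEMeasurable (fun z => ‖g z - g' z‖ₑ) (volume.restrict K) := by
        have h1 : AEStronglyMeasurable g (volume.restrict K) :=
          (hg.1.integrableOn_compact_subset (hKΩ.trans sdiff_subset) hKc).aestronglyMeasurable
        have h2 : AEStronglyMeasurable g' (volume.restrict K) :=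
          (hcont.mono hKΩ).aestronglyMeasurable hKc.measurableSet
        exact (h1.sub h2).enorm
      rw [lintegral_eq_zero_iff' hmeas] at hzero
      have h3 : ∀ᵐ z, z ∈ K → g z = g' z := by
        rw [← ae_restrict_iff' hKc.measurableSet]
        filter_upwards [hzero] with z hz
        have h4 : ‖g z - g' z‖ₑ = 0 := hz
        rw [enorm_eq_zero, sub_eq_zero] at h4
        exact h4
      rw [ae_iff] at h3
      refine measure_mono_null ?_ h3
      rintro z ⟨⟨-, h5⟩, h6⟩
      simp only [Set.mem_ofPred_eq, Classical.not_imp]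
      exact ⟨h6, h5⟩
    rw [ae_iff]
    refine measure_mono_null ?_ hnull
    intro z hz
    simp only [Set.mem_ofPred_eq, Classical.not_imp] at hz
    exact hz
  · intro K hK hKΩ δ hδ
    obtain ⟨r0, hr0, hfin, -⟩ := equi hΩ hb h0 hN hH hK hKΩ
    filter_upwards [hunif K hK hKΩ (δ / 2) (by positivity), hsmall r0 hr0] with ε hε hε2 z hz
    have h1 := abs_le.1 (hε z hz)
    rw [hfin (a ε) hε2 z hz, EReal.coe_lt_coe_iff, EReal.coe_lt_coe_iff]
    constructor <;> linarith [h1.1, h1.2]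

end Pool.Agent.N291.GC
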