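import Mathlib
import Pool.Agent.N291.GC.Psh

set_option autoImplicit false

open MeasureTheory Filter Topology Complex Set
open Pool.Agent.Helper311.GB

namespace Pool.Agent.N291.GC

variable {n : ℕ}

theorem rot_null (z : EE n) (c : ℂ) (hc : c ≠ 0) (B : Set (EE n)) (hB : volume B = 0) :
    volume ((fun v : EE n => z + c • v) ⁻¹' B) = 0 := by
  let L : EE n ≃L[ℝ] EE n :=
    ((LinearEquiv.smulOfNeZero ℂ (EE n) c hc).restrictScalars ℝ).toContinuousLinearEquiv
  have h1 : (fun v : EE n => z + c • v) ⁻¹' B = L ⁻¹' ((fun v : EE n => z + v) ⁻¹' B) := by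
    ext v
    rfl
  rw [h1, Measure.addHaar_preimage_continuousLinearEquiv, measure_preimage_add, hB, mul_zero]

/-- A plurisubharmonic function which is almost everywhere equal to a continuous function is equal
to it everywhere. -/
theorem psh_eq_of_ae {W : Set (EE n)} (hW : IsOpen W) {u : EE n → EReal} (hu : PSH W u)
    {g : EE n → ℝ} (hc : ContinuousOn g W) (hae : ∀ᵐ z, z ∈ W → u z = ((g z : ℝ) : EReal)) :
    ∀ z ∈ W, u z = ((g z : ℝ) : EReal) := by
  intro z hz
  refine le_antisymm ?_ ?_
  · by_contra hcon
    push Not at hcon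
    obtain ⟨y, hy1, hy2⟩ := EReal.lt_iff_exists_real_btwn.1 hcon
    rw [EReal.coe_lt_coe_iff] at hy1
    obtain ⟨c, hc1, hc2⟩ := exists_between hy1
    obtain ⟨C, hC, -⟩ := EReal.lt_iff_exists_real_btwn.1 (hu.2.1 z hz)
    have hu' : ∀ᶠ w in 𝓝 z, u w < (C : EReal) := by
      have := hu.1 z hz _ hC
      rwa [hW.nhdsWithin_eq hz] at this
    have hg' : ∀ᶠ w in 𝓝 z, g w < c :=
      (hc.continuousAt (hW.mem_nhds hz)).eventually (gt_mem_nhds hc1)
    obtain ⟨s, hs, hsb⟩ := Metric.eventually_nhds_iff.1
      ((hu'.and hg').and (hW.mem_nhds hz : ∀ᶠ w in 𝓝 z, w ∈ W))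
    set B : Set (EE n) := {w | ¬ (w ∈ W → u w = ((g w : ℝ) : EReal))} with hB
    have hB0 : volume B = 0 := ae_iff.1 hae
    set B' : Set (EE n) := toMeasurable volume B with hB'
    have hB'0 : volume B' = 0 := by rw [hB', measure_toMeasurable, hB0]
    have hB'm : MeasurableSet B' := measurableSet_toMeasurable _ _
    let ν : Measure ℝ := volume.restrict (Ioc 0 (2 * Real.pi))
    let T : Set (EE n × ℝ) := {p | z + (circleMap 0 1 p.2) • p.1 ∈ B'}
    have hTm : MeasurableSet T := by
      have hcont : Continuous (fun p : EE n × ℝ => z + (circleMap 0 1 p.2) • p.1) := by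
        have := continuous_circleMap 0 1
        fun_prop
      exact hcont.measurable hB'm
    have hT0 : ((volume : Measure (EE n)).prod ν) T = 0 := by
      rw [Measure.prod_apply_symm hTm]
      have : ∀ θ : ℝ, volume ((fun v : EE n => (v, θ)) ⁻¹' T) = 0 := by
        intro θ
        exact rot_null z (circleMap 0 1 θ) (by simp [circleMap]) B' hB'0
      simp [this]
    have h1 := Measure.measure_ae_null_of_prod_null hT0
    obtain ⟨v, hv1, hv2⟩ : ∃ v : EE n, v ∈ Metric.ball (0 : EE n) s ∧
        ν (Prod.mk v ⁻¹' T) = 0 := by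
      by_contra hno
      push Not at hno
      have h2 : Metric.ball (0 : EE n) s ⊆ {v | ¬ (fun x => ν (Prod.mk x ⁻¹' T)) v = (0 : EE n → ENNReal) v} := by
        intro v hv
        exact hno v hv
      have h3 := measure_mono_null h2 (ae_iff.1 h1)
      exact (Metric.measure_ball_pos volume (0 : EE n) hs).ne' h3
    rw [mem_ball_zero_iff] at hv1
    have hcirc : ∀ ζ : ℂ, ‖ζ‖ ≤ 1 → dist (z + ζ • v) z < s := by
      intro ζ hζ
      rw [dist_eq_norm, add_sub_cancel_left, norm_smul]
      nlinarith [norm_nonneg v, norm_nonneg ζ]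
    have hdisc : ∀ ζ : ℂ, ‖ζ‖ ≤ 1 → z + ζ • v ∈ W := fun ζ hζ => (hsb (hcirc ζ hζ)).2
    let A : Set ℂ := {ζ | ‖ζ‖ = 1 ∧ ((c : ℝ) : EReal) ≤ u (z + ζ • v)}
    have hAc : IsClosed A := by
      have h3 : UpperSemicontinuousOn (fun ζ : ℂ => u (z + ζ • v)) (Metric.sphere 0 1) := by
        refine UpperSemicontinuousOn.comp hu.1 (by fun_prop) fun ζ hζ => ?_
        exact hdisc ζ (by simpa using (le_of_eq (mem_sphere_zero_iff_norm.1 hζ)))
      obtain ⟨F, hF, hF'⟩ := (upperSemicontinuousOn_iff_preimage_Ici.1 h3) (c : EReal)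
      have h4 : A = Metric.sphere 0 1 ∩ F := by
        rw [← hF']
        ext ζ
        simp [A]
      rw [h4]
      exact Metric.isClosed_sphere.inter hF
    have hAae : ∀ᵐ θ ∂ν, circleMap 0 1 θ ∉ A := by
      have h3 : ∀ᵐ θ ∂ν, ¬ (z + (circleMap 0 1 θ) • v ∈ B') := by
        rw [ae_iff]
        simpa [T] using hv2
      filter_upwards [h3] with θ hθ hA
      have h4 : ‖circleMap 0 1 θ‖ = 1 := hA.1
      have h5 := hsb (hcirc _ h4.le)
      have h6 : z + (circleMap 0 1 θ) • v ∉ B := fun h => hθ (subset_toMeasurable _ _ h)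
      have h7 : u (z + (circleMap 0 1 θ) • v) = ((g (z + (circleMap 0 1 θ) • v) : ℝ) : EReal) := by
        by_contra h8
        exact h6 fun h9 => h8 (h9 h5.2)
      have h8 := hA.2
      rw [h7, EReal.coe_le_coe_iff] at h8
      exact absurd h5.1.2 (not_lt.2 h8)
    rcases A.eq_empty_or_nonempty with hAe | hAe
    · have h3 := hu.2.2 z v hdisc (fun _ => c) continuous_const (by
        intro ζ hζ
        by_contra h4
        push Not at h4
        have : ζ ∈ A := ⟨hζ, h4.le⟩
        rw [hAe] at this
        exact this)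
      rw [Real.circleAverage_const] at h3
      have h4 := hy2.trans_le h3
      rw [EReal.coe_lt_coe_iff] at h4
      linarith
    · let φ : ℕ → ℂ → ℝ := fun k ζ => c + |C - c| * max 0 (1 - k * Metric.infDist ζ A)
      have hφc : ∀ k, Continuous (φ k) := by
        intro k
        have := Metric.continuous_infDist_pt A
        simp only [φ]
        fun_prop
      have h3 : ∀ k, u z ≤ ((Real.circleAverage (φ k) 0 1 : ℝ) : EReal) := by
        intro k
        refine hu.2.2 z v hdisc (φ k) (hφc k) ?_
        intro ζ hζ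
        by_cases hA : ζ ∈ A
        · have h4 := (hsb (hcirc ζ hζ.le)).1.1
          refine h4.le.trans ?_
          rw [EReal.coe_le_coe_iff]
          simp only [φ]
          rw [Metric.infDist_zero_of_mem hA]
          have := le_abs_self (C - c)
          simp
          linarith
        · have h4 : u (z + ζ • v) < (c : EReal) := by
            by_contra h5
            push Not at h5
            exact hA ⟨hζ, h5⟩
          refine h4.le.trans ?_
          rw [EReal.coe_le_coe_iff]
          simp only [φ]
          have : 0 ≤ |C - c| * max 0 (1 - k * Metric.infDist ζ A) := by positivity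
          linarith
      have hlim : Tendsto (fun k => Real.circleAverage (φ k) 0 1) atTop (𝓝 c) := by
        have h4 : Tendsto (fun k => ∫ θ in (0:ℝ)..2 * Real.pi, φ k (circleMap 0 1 θ)) atTop
            (𝓝 (∫ θ in (0:ℝ)..2 * Real.pi, c)) := by
          refine intervalIntegral.tendsto_integral_filter_of_dominated_convergence
            (fun _ => |c| + |C - c|) ?_ ?_ ?_ ?_
          · refine Eventually.of_forall fun k => ?_
            exact ((hφc k).comp (continuous_circleMap 0 1)).aestronglyMeasurable
          · refine Eventually.of_forall fun k => Eventually.of_forall fun θ _ => ?_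
            simp only [φ]
            rw [Real.norm_eq_abs]
            refine (abs_add_le _ _).trans ?_
            refine add_le_add le_rfl ?_
            rw [abs_mul, abs_abs]
            have h5 : |max 0 (1 - (k:ℝ) * Metric.infDist (circleMap 0 1 θ) A)| ≤ 1 := by
              rw [abs_of_nonneg (le_max_left _ _)]
              refine max_le zero_le_one ?_
              have : 0 ≤ (k:ℝ) * Metric.infDist (circleMap 0 1 θ) A :=
                mul_nonneg (Nat.cast_nonneg k) Metric.infDist_nonneg
              linarith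
            exact mul_le_of_le_one_right (abs_nonneg _) h5
          · exact intervalIntegrable_const
          · have h5 : ∀ᵐ θ, θ ∈ Set.uIoc 0 (2 * Real.pi) → circleMap 0 1 θ ∉ A := by
              rw [uIoc_of_le (by positivity)]
              exact (ae_restrict_iff' measurableSet_Ioc).1 hAae
            filter_upwards [h5] with θ hθ hθ2
            have h6 := hθ hθ2
            have h7 : 0 < Metric.infDist (circleMap 0 1 θ) A :=
              (hAc.notMem_iff_infDist_pos hAe).1 h6
            obtain ⟨k0, hk0⟩ := exists_nat_gt (1 / Metric.infDist (circleMap 0 1 θ) A)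
            refine tendsto_const_nhds.congr' ?_
            filter_upwards [eventually_ge_atTop k0] with k hk
            have h8 : 1 - (k:ℝ) * Metric.infDist (circleMap 0 1 θ) A ≤ 0 := by
              have h9 : (k0:ℝ) ≤ k := by exact_mod_cast hk
              have h10 : 1 / Metric.infDist (circleMap 0 1 θ) A < k := hk0.trans_le h9
              rw [div_lt_iff₀ h7] at h10
              linarith
            simp only [φ]
            rw [max_eq_left h8]
            ring
        have h5 := h4.const_mul ((2 * Real.pi)⁻¹)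
        have h6 : (2 * Real.pi)⁻¹ * (∫ θ in (0:ℝ)..2 * Real.pi, c) = c := by
          rw [intervalIntegral.integral_const, sub_zero, smul_eq_mul, ← mul_assoc,
            inv_mul_cancel₀ (by positivity), one_mul]
        rw [h6] at h5
        exact h5
      obtain ⟨k, hk⟩ := (hlim.eventually (gt_mem_nhds hc2)).exists
      have h4 := hy2.trans_le (h3 k)
      rw [EReal.coe_lt_coe_iff] at h4
      linarith
  · by_contra hcon
    push Not at hcon
    obtain ⟨y, hy1, hy2⟩ := EReal.lt_iff_exists_real_btwn.1 hcon
    rw [EReal.coe_lt_coe_iff] at hy2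
    have hu' : ∀ᶠ w in 𝓝 z, u w < (y : EReal) := by
      have := hu.1 z hz _ hy1
      rwa [hW.nhdsWithin_eq hz] at this
    have hg' : ∀ᶠ w in 𝓝 z, y < g w :=
      (hc.continuousAt (hW.mem_nhds hz)).eventually (lt_mem_nhds hy2)
    obtain ⟨s, hs, hsb⟩ := Metric.eventually_nhds_iff.1
      ((hu'.and hg').and (hW.mem_nhds hz : ∀ᶠ w in 𝓝 z, w ∈ W))
    have h2 : Metric.ball z s ⊆ {w | ¬ (w ∈ W → u w = ((g w : ℝ) : EReal))} := by
      intro w hw hcon2
      have h3 := hsb hw
      have h4 := hcon2 h3.2
      have h5 := h3.1.1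
      rw [h4, EReal.coe_lt_coe_iff] at h5
      exact absurd h5 (not_lt.2 h3.1.2.le)
    have h3 := measure_mono_null h2 (ae_iff.1 hae)
    exact (Metric.measure_ball_pos volume z hs).ne' h3

end Pool.Agent.N291.GC
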